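import Pool.Agent.W_4481e3_q87.GoR
import Pool.Agent.W_4481e3_tab.T8

/-!
Tree s23o8, data 7.
-/

namespace Pool.Agent.W_4481e3_rt.s23o8

open Pool.Agent.W_4481e3_q25.EvR

theorem k144 : ckO Pool.Agent.W_4481e3_tab.T8.tab 1144800 2220640 16777216 4194304 5931008 8388608 7 2621440 524288 3670016 524288 512714645 528005808 946643 1893286 268416092 268441147 16777216 16777216 8472495 8472495 0x103000c03000c03000c2104000c05029c205029c05000c05029c2105029c05029c05029c2824cc7a1b771212 = true := by decide +kernel

theorem k146 : ckO Pool.Agent.W_4481e3_tab.T8.tab 1144800 2220640 16777216 4194304 5931008 8388608 2 2621440 524288 3670016 524288 513661288 524219236 1893286 1893286 268416092 268441147 16777216 16777216 8472495 8472495 0x103000c03000c1 = true := by decide +kernel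

theorem k148 : ckO Pool.Agent.W_4481e3_tab.T8.tab 1144800 2220640 16777216 4194304 5931008 8388608 6 2621440 524288 3670016 524288 509874716 526112522 1893286 3786571 268416092 268441147 16777216 16777216 8472495 8472495 0x102000c03000c02000c03000c03000c04000c21212 = true := by decide +kernel

theorem k153 : ckO Pool.Agent.W_4481e3_tab.T8.tab 1144800 2220640 16777216 4194304 5931008 8388608 5 2621440 524288 3670016 524288 515354132 515354132 7172260 7172260 268435456 268435456 16777216 16777216 8472495 8472495 0x102000c02000c02000c1202000c02000c03000c202000c03000c2121 = true := by decide +kernel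

theorem k156 : ckO Pool.Agent.W_4481e3_tab.T8.tab 1144800 2220640 16777216 4194304 5931008 8388608 5 2621440 524288 3670016 524288 522526392 493837352 14344520 14344520 268435456 268435456 16777216 16777216 8472495 8472495 0x100000c00000c01000c201000c02000c21201000c01007c01003c121 = true := by decide +kernel

theorem k158 : ckO Pool.Agent.W_4481e3_tab.T8.tab 1144800 2220640 16777216 4194304 5931008 8388608 10 2621440 524288 3670016 524288 493837352 508181872 14344520 28689040 268435456 268435456 16777216 16777216 8472495 8472495 0x100000c00000c00000c00000c00000c02000c12100000c00000c200000c00000c202000c02000c2102000c02000c202000c02000c02000c2102000c04000c04000c212121212 = true := by decide +kernel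

end Pool.Agent.W_4481e3_rt.s23o8
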